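import Mathlib

/-!
# K5N.Sys : the analytic interface of project K5

All generating functions are values in `ENNReal` at real points.

* `ser c x z w t` : value at `(x, z, w, t)` of the family of coefficients `c` (vertices `x`,
  edges on no marked triangle `z`, edges on marked triangles `w`, marked triangles `t`);
* `px, pb, pw1, pw2, pw3, pkap, pT, pY, pD, pN` : the explicit solution of the map side in terms of the
  parameters `(r, s, y, t)`;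
* `Good`, `Crit` : admissible and critical parameters;
* `Sys` : the block theorems of the graph side and of the map side.
-/

namespace K5N

open scoped ENNReal

noncomputable section

/-- Value of a family of coefficients at `(x, z, w, t)`. -/
def ser (c : ℕ → ℕ → ℕ → ℕ → ℝ≥0∞) (x z w t : ℝ≥0∞) : ℝ≥0∞ :=
  ∑' m : ℕ × ℕ × ℕ × ℕ,
    c m.1 m.2.1 m.2.2.1 m.2.2.2 * x ^ m.1 * z ^ m.2.1 * w ^ m.2.2.1 * t ^ m.2.2.2

/-! ### The explicit solution of the map side -/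

/-- weight of the white vertices -/
def px (r s y t : ℝ) : ℝ := r - y * r * (r + 2 * s) - t * r * (r ^ 2 + 6 * r * s + 3 * s ^ 2)
/-- weight of the black vertices (to be equal to one) -/
def pb (r s y t : ℝ) : ℝ := s - y * s * (s + 2 * r) - t * s * (s ^ 2 + 6 * r * s + 3 * r ^ 2)
/-- `W_1` -/
def pw1 (r s y t : ℝ) : ℝ := r * s * (1 - 2 * y * (r + s) - 3 * t * ((r + s) ^ 2 + r * s))
/-- `W_2` -/
def pw2 (r s y t : ℝ) : ℝ :=
  r * s * ((r + s) - y * (2 * (r + s) ^ 2 + r * s) - 3 * t * (r + s) * ((r + s) ^ 2 + 2 * (r * s)))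
/-- `W_3` -/
def pw3 (r s y t : ℝ) : ℝ :=
  r * s * (((r + s) ^ 2 + r * s) - 2 * y * (r + s) * ((r + s) ^ 2 + 2 * (r * s))
    - t * (3 * (r + s) ^ 4 + 12 * (r + s) ^ 2 * (r * s) + 4 * (r * s) ^ 2))
/-- `κ = W_1 / x` -/
def pkap (r s y t : ℝ) : ℝ := pw1 r s y t / px r s y t
/-- weight of the marked triangles -/
def pT (r s y t : ℝ) : ℝ := t * pkap r s y t ^ 3
/-- weight of the edges -/
def pY (r s y t : ℝ) : ℝ := y * pkap r s y t ^ 2 + 2 * pT r s y t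
/-- the value of `D_map` -/
def pD (r s y t : ℝ) : ℝ :=
  (pw2 r s y t / pkap r s y t ^ 2 - px r s y t) / px r s y t ^ 2 - 1
/-- the value of `NS_3 / x^3 = 1 + 3 D + S_3` -/
def pN (r s y t : ℝ) : ℝ :=
  (pw3 r s y t / pkap r s y t ^ 3 - 3 * px r s y t ^ 2 * (1 + pD r s y t) - px r s y t)
    / px r s y t ^ 3
/-- the diagonal entry of the Jacobian matrix -/
def pj (r s y t : ℝ) : ℝ := 1 - 2 * y * (r + s) - 3 * t * (r ^ 2 + 4 * r * s + s ^ 2)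

/-- Admissible parameters (subcritical or critical). -/
structure Good (r s y t : ℝ) : Prop where
  r_pos : 0 < r
  s_pos : 0 < s
  y_nonneg : 0 ≤ y
  t_nonneg : 0 ≤ t
  x_pos : 0 < px r s y t
  b_eq : pb r s y t = 1
  j_nonneg : 0 ≤ pj r s y t
  sub : 4 * r * s * (y + 3 * t * (r + s)) ^ 2 ≤ pj r s y t ^ 2

/-- Critical parameters. -/
structure Crit (r s y t : ℝ) : Prop extends Good r s y t where
  y_pos : 0 < y
  t_pos : 0 < t
  crit : 4 * r * s * (y + 3 * t * (r + s)) ^ 2 = pj r s y t ^ 2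

/-- The block theorems, for abstract functions. -/
structure Sys where
  /-- the growth constant -/
  γ : ℝ
  /-- `K~`: three-connected planar graphs with marked triangles, rooted at an edge -/
  kc : ℕ → ℕ → ℕ → ℕ → ℝ≥0∞
  /-- the same, the root edge lies on no marked triangle -/
  k0 : ℕ → ℕ → ℕ → ℕ → ℝ≥0∞
  /-- the same as `kc`, rooted at a triangle -/
  ac : ℕ → ℕ → ℕ → ℕ → ℝ≥0∞
  /-- networks of the class `Ex(K_5)` with edge weight one -/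
  Dg : ℝ≥0∞ → ℝ≥0∞
  /-- map networks `D_map x Y T` -/
  Dm : ℝ≥0∞ → ℝ≥0∞ → ℝ≥0∞ → ℝ≥0∞
  /-- `NS_3 / x^3 = 1 + 3 D + S_3` at `x Y T` -/
  N3 : ℝ≥0∞ → ℝ≥0∞ → ℝ≥0∞ → ℝ≥0∞
  /-- graph side, upper bound for the networks -/
  hGU : ∀ x z t a k : ℝ, 0 < x → 1 ≤ z → 0 ≤ t → 0 ≤ a → 0 ≤ k →
    ser ac (.ofReal x) (.ofReal z) (.ofReal (1 + z)) (.ofReal t) ≤ .ofReal a →
    Real.exp a - 1 - a ≤ t →
    ser kc (.ofReal x) (.ofReal z) (.ofReal (1 + z)) (.ofReal t) ≤ .ofReal k →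
    x * z ^ 2 / (1 + x * z) + k + 3 / 2 * x ^ 6 * z ^ 11 ≤ Real.log ((1 + z) / 2) →
    Dg (.ofReal x) ≤ .ofReal z
  /-- blocks, upper bound -/
  hBU : ∀ x z : ℝ, 0 < x → 1 ≤ z → Dg (.ofReal x) ≤ .ofReal z →
    γ * x ≤ Real.exp (x / 2 + x * (1 + z) / 4 - x ^ 3 / 3)
  /-- graph side, lower bound for the networks -/
  hGL : ∀ x x1 : ℝ, 0 < x → x < x1 → Dg (.ofReal x1) ≠ ∞ → ∃ z t a k : ℝ,
    1 ≤ z ∧ 0 ≤ t ∧ 0 ≤ a ∧ 0 ≤ k ∧ Dg (.ofReal x) = .ofReal z ∧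
    ser ac (.ofReal x) (.ofReal z) (.ofReal (1 + z)) (.ofReal t) ≤ .ofReal a ∧
    Real.exp a - 1 - a ≤ t ∧
    ser k0 (.ofReal x) (.ofReal z) (.ofReal (1 + z)) (.ofReal t) ≤ .ofReal k ∧
    x * z ^ 2 / (1 + x * z) + k ≤ Real.log ((1 + z) / 2) + x ^ 4 * z ^ 8 / 4
  /-- blocks, lower bound -/
  hBL : ∀ x : ℝ, 0 < x → x ≤ 1 / 4 →
    γ * x < Real.exp (x + x ^ 2 / 2 + 5 * x ^ 3 / 3 + 79 * x ^ 4 / 8) → Dg (.ofReal x) ≠ ∞
  /-- a marked triangle at the root edge -/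
  hK0 : ∀ x z w t : ℝ≥0∞, ser kc x z w t ≤ ser k0 x z w t + x * w ^ 2 * t * ser ac x z w t
  /-- the equation of the map networks -/
  hMeq : ∀ x Y T : ℝ≥0∞, x ≠ 0 → x ≠ ∞ → Y ≠ ∞ → T ≠ ∞ → Dm x Y T ≠ ∞ → ∃ S : ℝ≥0∞,
    S * (1 + x * Dm x Y T) = x * Dm x Y T ^ 2 ∧
    Dm x Y T = (1 + Dm x Y T) * (Y + S + x * (1 + Dm x Y T) ^ 2 * (2 * T + T ^ 2) +
      2 * ser kc x (Dm x Y T) (1 + Dm x Y T) T) ∧
    N3 x Y T = (1 + Dm x Y T) ^ 3 * (1 + T + ser ac x (Dm x Y T) (1 + Dm x Y T) T)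
  /-- supersolutions of the equation of the map networks -/
  hMsup : ∀ x Y T z S : ℝ≥0∞, x ≠ ∞ → Y ≠ ∞ → T ≠ ∞ → z ≠ ∞ →
    S * (1 + x * z) = x * z ^ 2 →
    (1 + z) * (Y + S + x * (1 + z) ^ 2 * (2 * T + T ^ 2) + 2 * ser kc x z (1 + z) T) ≤ z →
    Dm x Y T ≤ z
  /-- the explicit solution -/
  hAS : ∀ r s y t : ℝ, Good r s y t → 0 < pkap r s y t ∧
    Dm (.ofReal (px r s y t)) (.ofReal (pY r s y t)) (.ofReal (pT r s y t)) =
      .ofReal (pD r s y t) ∧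
    N3 (.ofReal (px r s y t)) (.ofReal (pY r s y t)) (.ofReal (pT r s y t)) =
      .ofReal (pN r s y t)
  /-- the ray through a critical point -/
  hAR : ∀ r s y t : ℝ, Crit r s y t → ∃ (z n κ : ℝ → ℝ) (dz dκ : ℝ),
    HasDerivWithinAt z dz (Set.Iic 1) 1 ∧ HasDerivWithinAt κ dκ (Set.Iic 1) 1 ∧
    z 1 = pD r s y t ∧ κ 1 = pkap r s y t ∧
    ∀ l : ℝ, 0 < l → l ≤ 1 → 0 < κ l ∧ 0 ≤ z l ∧ 0 ≤ n l ∧
      Dm (.ofReal (px r s y t)) (.ofReal (l * y * κ l ^ 2 + 2 * (l * t * κ l ^ 3)))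
        (.ofReal (l * t * κ l ^ 3)) = .ofReal (z l) ∧
      N3 (.ofReal (px r s y t)) (.ofReal (l * y * κ l ^ 2 + 2 * (l * t * κ l ^ 3)))
        (.ofReal (l * t * κ l ^ 3)) = .ofReal (n l) ∧
      κ l = 1 + l * y * κ l ^ 2 * (1 + px r s y t * (1 + z l)) +
        l * t * κ l ^ 3 * (1 + 3 * px r s y t * (1 + z l) + px r s y t ^ 2 * n l)
  /-- nothing is finite beyond a critical point -/
  hAX : ∀ r s y t : ℝ, Crit r s y t → ∀ Y T D N : ℝ, 0 < T → 2 * T < Y → 0 ≤ D → 0 ≤ N →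
    Dm (.ofReal (px r s y t)) (.ofReal Y) (.ofReal T) = .ofReal D →
    N3 (.ofReal (px r s y t)) (.ofReal Y) (.ofReal T) = .ofReal N →
    ∀ κ : ℝ, κ = 1 + (Y - 2 * T) * (1 + px r s y t * (1 + D)) +
      T * (1 + 3 * px r s y t * (1 + D) + px r s y t ^ 2 * N) →
    ¬ (y < (Y - 2 * T) / κ ^ 2 ∧ t < T / κ ^ 3)

end

end K5N
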