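import Pool.Agent.Lib.K5N.Step

/-!
# K5N.LowCrit : the critical point used for the lower bound (generated)
-/

namespace K5N

noncomputable section

/-- first parameter of the critical point -/
def cr : ℝ := (1505988449142489/10000000000000000)
/-- second parameter of the critical point -/
def cs : ℝ := (17286941226514969/10000000000000000)
/-- third parameter of the critical point -/
def cy : ℝ := (25337021882743187426155392649864531276096015062220000000000000000/123468469993256609287406472766284979222706781325244504454906076319)
/-- fourth parameter of the critical point -/
def ct : ℝ := (132963349225250738047043029212050000000000000000000000000000000/123468469993256609287406472766284979222706781325244504454906076319)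

theorem cpx : px cr cs cy ct = (5634602212264725783482721973022520395116552652984539901216069344786578804/150718347159737071884041104451031468777718238922417607977180268944091796875) := by
  norm_num [px, cr, cs, cy, ct]

theorem cpw1 : pw1 cr cs cy ct = (612211803349736156042964539587345414261038970903222048816763490966127707/10864477102075705397839278028998058253685400000000000000000000000000000000) := by
  norm_num [pw1, cr, cs, cy, ct]

theorem cpw2 : pw2 cr cs cy ct = (2487366071779160757666205819779622818963272096995467420285255798161761386085047568876803/27161192755189263494598195072495145634213500000000000000000000000000000000000000000000000) := by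
  norm_num [pw2, cr, cs, cy, ct]

theorem crit_c : Crit cr cs cy ct where
  r_pos := by norm_num [cr]
  s_pos := by norm_num [cs]
  y_nonneg := by norm_num [cy]
  t_nonneg := by norm_num [ct]
  x_pos := by rw [cpx]; norm_num
  b_eq := by norm_num [pb, cr, cs, cy, ct]
  j_nonneg := by norm_num [pj, cr, cs, cy, ct]
  sub := by norm_num [pj, cr, cs, cy, ct]
  y_pos := by norm_num [cy]
  t_pos := by norm_num [ct]
  crit := by norm_num [pj, cr, cs, cy, ct]

theorem cpx_le : px cr cs cy ct ≤ (1869249/50000000) := by rw [cpx]; norm_num

theorem cD_pos : 0 < pD cr cs cy ct := by
  rw [pD_eq (by rw [cpx]; norm_num) (by rw [cpw1]; norm_num), cpx, cpw1, cpw2]; norm_num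

theorem cD_lt : pD cr cs cy ct < (5459727141/5000000000) := by
  rw [pD_eq (by rw [cpx]; norm_num) (by rw [cpw1]; norm_num), cpx, cpw1, cpw2]; norm_num

theorem cT_lt : pT cr cs cy ct < (368776863/100000000000) := by
  unfold pT pkap
  rw [cpx, cpw1]
  norm_num [ct]

end

end K5N
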