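import Pool.Agent.Lib.K5N.Step

/-!
# K5N.Up : the upper bound
-/

namespace K5N

open scoped ENNReal

noncomputable section

theorem exp_upper {u : ℝ} (hu : 0 ≤ u) (hu1 : u ≤ 1) :
    Real.exp u ≤ 1 + u + u ^ 2 / 2 + u ^ 3 / 6 + u ^ 4 / 24 + u ^ 5 / 120 + u ^ 6 * 7 / 4320 := by
  have h := Real.exp_bound' hu hu1 (n := 6) (by norm_num)
  simp only [Finset.sum_range_succ, Finset.sum_range_zero, Nat.factorial] at h
  norm_num at h
  linarith

theorem exp_sub_mono {a b : ℝ} (ha : 0 ≤ a) (hab : a ≤ b) :
    Real.exp a - a ≤ Real.exp b - b := by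
  have g3 : Real.exp b = Real.exp a * Real.exp (b - a) := by
    rw [← Real.exp_add]; congr 1; ring
  have g4 : 1 + (b - a) ≤ Real.exp (b - a) := by
    have := Real.add_one_le_exp (b - a); linarith
  have g5 : 1 ≤ Real.exp a := Real.one_le_exp ha
  have g6 : Real.exp a * (1 + (b - a)) ≤ Real.exp b := by
    rw [g3]; exact mul_le_mul_of_nonneg_left g4 (by positivity)
  nlinarith

/-- first parameter -/
def ur : ℝ := (7513/50000)
/-- second parameter -/
def us : ℝ := (86383/50000)
/-- third parameter -/
def uy : ℝ := (1284074952718515209/6257152605000000000)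
/-- fourth parameter -/
def ut : ℝ := (1077/1000000)

theorem upx : px ur us uy ut = (805280540939814082692151/21546668750000000000000000) := by
  norm_num [px, ur, us, uy, ut]

theorem upw1 : pw1 ur us uy ut = (18547928138697580024893821/329250000000000000000000000) := by
  norm_num [pw1, ur, us, uy, ut]

theorem upw2 : pw2 ur us uy ut = (14304964933648822530804422947/156250000000000000000000000000) := by
  norm_num [pw2, ur, us, uy, ut]

theorem upw3 : pw3 ur us uy ut = (54804018367041383743755410339601759/342968750000000000000000000000000000) := by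
  norm_num [pw3, ur, us, uy, ut]

theorem good_u : Good ur us uy ut where
  r_pos := by norm_num [ur]
  s_pos := by norm_num [us]
  y_nonneg := by norm_num [uy]
  t_nonneg := by norm_num [ut]
  x_pos := by rw [upx]; norm_num
  b_eq := by norm_num [pb, ur, us, uy, ut]
  j_nonneg := by norm_num [pj, ur, us, uy, ut]
  sub := by norm_num [pj, ur, us, uy, ut]

theorem ux_l : (37373783868089/1000000000000000) ≤ px ur us uy ut := by rw [upx]; norm_num
theorem ux_h : px ur us uy ut ≤ (3737378386809/100000000000000) := by rw [upx]; norm_num

theorem uD_l : (10920616955891/10000000000000) ≤ pD ur us uy ut := by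
  rw [pD_eq (by rw [upx]; norm_num) (by rw [upw1]; norm_num), upx, upw1, upw2]; norm_num

theorem uD_h : pD ur us uy ut ≤ (2730154238973/2500000000000) := by
  rw [pD_eq (by rw [upx]; norm_num) (by rw [upw1]; norm_num), upx, upw1, upw2]; norm_num

theorem uT_l : (184413776391/50000000000000) ≤ pT ur us uy ut := by
  unfold pT pkap; rw [upx, upw1]; norm_num [ut]

theorem uY_l : (947252855729/2000000000000) ≤ pY ur us uy ut := by
  unfold pY pT pkap; rw [upx, upw1]; norm_num [ut, uy]

theorem uN_h : pN ur us uy ut ≤ (2491345173557/250000000000) := by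
  rw [pN_eq (by rw [upx]; norm_num) (by rw [upw1]; norm_num),
    pD_eq (by rw [upx]; norm_num) (by rw [upw1]; norm_num), upx, upw1, upw2, upw3]; norm_num

theorem uA_h : pA ur us uy ut ≤ (8466635791/100000000000) := by
  have h1 := uD_l
  have h2 := uT_l
  have h3 := uN_h
  unfold pA
  have c1 : pN ur us uy ut / (1 + pD ur us uy ut) ^ 3 ≤ (2491345173557/250000000000) / (1 + (10920616955891/10000000000000)) ^ 3 := by
    refine div_le_div₀ (by norm_num) h3 (by norm_num) ?_
    exact pow_le_pow_left₀ (by norm_num) (by linarith) 3
  have c2 : (2491345173557/250000000000) / (1 + (10920616955891/10000000000000)) ^ 3 - 1 - (184413776391/50000000000000) ≤ ((8466635791/100000000000) : ℝ) := by norm_num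
  linarith

theorem uK_h : pK ur us uy ut ≤ (2171634693/1000000000000) := by
  have h1 := uD_l
  have h1' := uD_h
  have h2 := uT_l
  have h3 := ux_l
  have h4 := uY_l
  unfold pK
  set D := pD ur us uy ut
  set X := px ur us uy ut
  set T := pT ur us uy ut
  have hD0 : 0 < D := lt_of_lt_of_le (by norm_num) h1
  have hX0 : 0 < X := lt_of_lt_of_le (by norm_num) h3
  have hT0 : 0 < T := lt_of_lt_of_le (by norm_num) h2
  have c1 : D / (1 + D) ≤ (2730154238973/2500000000000) / (1 + (2730154238973/2500000000000)) := by
    rw [div_le_div_iff₀ (by positivity) (by norm_num)]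
    nlinarith
  have c2 : (37373783868089/1000000000000000) * (10920616955891/10000000000000) ^ 2 / (1 + (37373783868089/1000000000000000) * (10920616955891/10000000000000)) ≤ X * D ^ 2 / (1 + X * D) := by
    have e1 : ((37373783868089/1000000000000000) : ℝ) * (10920616955891/10000000000000) ^ 2 ≤ X * D ^ 2 := by gcongr
    have e2 : ((37373783868089/1000000000000000) * (10920616955891/10000000000000) * (X * D) * (10920616955891/10000000000000) : ℝ) ≤ (37373783868089/1000000000000000) * (10920616955891/10000000000000) * (X * D) * D := by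
      gcongr
    rw [div_le_div_iff₀ (by norm_num) (by positivity)]
    nlinarith
  have c3 : (37373783868089/1000000000000000) * (1 + (10920616955891/10000000000000)) ^ 2 * (2 * (184413776391/50000000000000) + (184413776391/50000000000000) ^ 2) ≤
      X * (1 + D) ^ 2 * (2 * T + T ^ 2) := by gcongr
  have c4 : ((2730154238973/2500000000000) / (1 + (2730154238973/2500000000000)) - (947252855729/2000000000000) - (37373783868089/1000000000000000) * (10920616955891/10000000000000) ^ 2 / (1 + (37373783868089/1000000000000000) * (10920616955891/10000000000000)) -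
      (37373783868089/1000000000000000) * (1 + (10920616955891/10000000000000)) ^ 2 * (2 * (184413776391/50000000000000) + (184413776391/50000000000000) ^ 2)) / 2 ≤ ((2171634693/1000000000000) : ℝ) := by norm_num
  linarith

/-- The upper bound. -/
theorem Sys.upper (S : Sys) : S.γ ≤ 278 / 10 := by
  have hD0 : 0 < pD ur us uy ut := lt_of_lt_of_le (by norm_num) uD_l
  obtain ⟨v0, v1, v2, v3, v4⟩ := S.vals good_u hD0.le
  have hX0 : 0 < px ur us uy ut := good_u.x_pos
  have hD1 : 1 ≤ pD ur us uy ut := le_trans (by norm_num) uD_l
  have h1 := S.hGU (px ur us uy ut) (pD ur us uy ut) (pT ur us uy ut) (pA ur us uy ut)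
    (pK ur us uy ut) hX0 hD1 v0 v2 v1 v4.le ?_ v3.le ?_
  · have h2 := S.hBU _ _ hX0 hD1 h1
    set X := px ur us uy ut
    set D := pD ur us uy ut
    have e1 : X / 2 + X * (1 + D) / 4 - X ^ 3 / 3 ≤ (38216556117/1000000000000) := by
      have f1 : X ≤ (3737378386809/100000000000000) := ux_h
      have f2 : (37373783868089/1000000000000000) ≤ X := ux_l
      have f3 : D ≤ (2730154238973/2500000000000) := uD_h
      have f4 : X * (1 + D) ≤ (3737378386809/100000000000000) * (1 + (2730154238973/2500000000000)) := by gcongr
      have f5 : ((37373783868089/1000000000000000) : ℝ) ^ 3 ≤ X ^ 3 := by gcongr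
      norm_num at f4 f5
      linarith
    have e2 := exp_upper (u := (38216556117/1000000000000)) (by norm_num) (by norm_num)
    have e3 : S.γ * X ≤ 278 / 10 * (37373783868089/1000000000000000) := by
      refine h2.trans ((Real.exp_le_exp.2 e1).trans (e2.trans ?_))
      norm_num
    have e4 : S.γ * X ≤ 278 / 10 * X := e3.trans (by
      have : (37373783868089/1000000000000000) ≤ X := ux_l
      linarith)
    exact le_of_mul_le_mul_right e4 hX0
  · have e1 := exp_sub_mono v2 uA_h
    have e2 := exp_upper (u := (8466635791/100000000000)) (by norm_num) (by norm_num)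
    have e3 := uT_l
    norm_num at e2
    linarith
  · rw [Real.le_log_iff_exp_le (by positivity)]
    have f1 : px ur us uy ut ≤ (3737378386809/100000000000000) := ux_h
    have f3 : pD ur us uy ut ≤ (2730154238973/2500000000000) := uD_h
    have f4 : pK ur us uy ut ≤ (2171634693/1000000000000) := uK_h
    have f5 : (10920616955891/10000000000000) ≤ pD ur us uy ut := uD_l
    set X := px ur us uy ut
    set D := pD ur us uy ut
    have c2 : X * D ^ 2 / (1 + X * D) ≤ (3737378386809/100000000000000) * (2730154238973/2500000000000) ^ 2 / (1 + (3737378386809/100000000000000) * (2730154238973/2500000000000)) := by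
      have e1 : X * D ^ 2 ≤ ((3737378386809/100000000000000) : ℝ) * (2730154238973/2500000000000) ^ 2 := by gcongr
      have e2 : X * D * ((3737378386809/100000000000000) * (2730154238973/2500000000000) : ℝ) * D ≤ X * D * ((3737378386809/100000000000000) * (2730154238973/2500000000000) : ℝ) * (2730154238973/2500000000000) := by
        gcongr
      rw [div_le_div_iff₀ (by positivity) (by norm_num)]
      nlinarith
    have c3 : 3 / 2 * X ^ 6 * D ^ 11 ≤ 3 / 2 * (3737378386809/100000000000000) ^ 6 * (2730154238973/2500000000000) ^ 11 := by gcongr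
    have c4 : X * D ^ 2 / (1 + X * D) + pK ur us uy ut + 3 / 2 * X ^ 6 * D ^ 11 ≤
        (44995730603/1000000000000) := by
      have : ((3737378386809/100000000000000) * (2730154238973/2500000000000) ^ 2 / (1 + (3737378386809/100000000000000) * (2730154238973/2500000000000)) + (2171634693/1000000000000) +
        3 / 2 * (3737378386809/100000000000000) ^ 6 * (2730154238973/2500000000000) ^ 11 : ℝ) ≤ (44995730603/1000000000000) := by norm_num
      linarith
    have e2 := exp_upper (u := (44995730603/1000000000000)) (by norm_num) (by norm_num)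
    refine (Real.exp_le_exp.2 c4).trans (e2.trans ?_)
    refine le_trans ?_ (show (1 + (10920616955891/10000000000000)) / 2 ≤ (1 + D) / 2 by linarith)
    norm_num

end

end K5N
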