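import Pool.Agent.Lib.K5N.CL
import Pool.Agent.Lib.K5N.LowPts
import Pool.Agent.Lib.K5N.LowCrit
import Pool.Agent.Lib.K5N.Up

/-!
# K5N.Main : the two bounds for the growth constant from the block theorems
-/

namespace K5N

open scoped ENNReal

noncomputable section

/-- The lower bound. -/
theorem Sys.lower (S : Sys) : 2779 / 100 ≤ S.γ := by
  by_contra hlt
  push Not at hlt
  have hfin : S.Dg (.ofReal (7476997/200000000)) ≠ ∞ := by
    refine S.hBL _ (by norm_num) (by norm_num) ?_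
    have h1 : S.γ * (7476997/200000000) < 2779 / 100 * (7476997/200000000) :=
      mul_lt_mul_of_pos_right hlt (by norm_num)
    refine h1.trans_le (le_trans ?_ (exp_lower (by norm_num)))
    norm_num
  obtain ⟨z, t, a, k, hz, ht, ha, hk, -, hA, hT, hK, hD⟩ :=
    S.hGL (1869249/50000000) (7476997/200000000) (by norm_num) (by norm_num) hfin
  have hLP : S.LP (1869249/50000000) z t a k := ⟨by norm_num, hz, ht, ha, hk, hA, hT, hK, hD⟩
  obtain ⟨hZ, hT'⟩ := hLP.low
  have hx : ENNReal.ofReal (px cr cs cy ct) ≤ ENNReal.ofReal (1869249/50000000) :=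
    ENNReal.ofReal_le_ofReal cpx_le
  have fA : ser S.ac (.ofReal (1869249/50000000)) (.ofReal z) (.ofReal (1 + z)) (.ofReal t) ≠ ∞ :=
    ne_top_of_le_ne_top ENNReal.ofReal_ne_top hA
  have f0 : ser S.k0 (.ofReal (1869249/50000000)) (.ofReal z) (.ofReal (1 + z)) (.ofReal t) ≠ ∞ :=
    ne_top_of_le_ne_top ENNReal.ofReal_ne_top hK
  have fK : ser S.kc (.ofReal (1869249/50000000)) (.ofReal z) (.ofReal (1 + z)) (.ofReal t) ≠ ∞ := by
    refine ne_top_of_le_ne_top ?_ (S.hK0 _ _ _ _)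
    exact ENNReal.add_ne_top.2 ⟨f0, ENNReal.mul_ne_top (ENNReal.mul_ne_top (ENNReal.mul_ne_top
      ENNReal.ofReal_ne_top (ENNReal.pow_ne_top ENNReal.ofReal_ne_top)) ENNReal.ofReal_ne_top) fA⟩
  exact S.cl crit_c cD_pos (lt_of_lt_of_le cD_lt hZ) (lt_of_lt_of_le cT_lt hT')
    (ne_top_of_le_ne_top fK (ser_mono _ hx le_rfl le_rfl le_rfl))
    (ne_top_of_le_ne_top fA (ser_mono _ hx le_rfl le_rfl le_rfl))

/-- The growth constant lies between `27.79` and `27.80`. -/
theorem Sys.main (S : Sys) : 2779 / 100 ≤ S.γ ∧ S.γ ≤ 278 / 10 := ⟨S.lower, S.upper⟩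

end

end K5N
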