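import Pool.Agent.Lib.K5N.SerDiff

/-!
# K5N.CL : the crossing lemma

Beyond a critical point the core series are infinite: otherwise the inverse of the parametrisation
is differentiable at the critical point, its derivative in the direction of the ray through the
critical point is the direction of the ray, and one gets finite values beyond the critical point.
-/

namespace K5N

open scoped ENNReal Topology

noncomputable section

namespace CL

variable (S : Sys) (x : ℝ)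

/-- the value of `K~` -/
def KK (p : ℝ × ℝ) : ℝ :=
  (ser S.kc (.ofReal x) (.ofReal p.1) (.ofReal (1 + p.1)) (.ofReal p.2)).toReal
/-- the value of `A~` -/
def AA (p : ℝ × ℝ) : ℝ :=
  (ser S.ac (.ofReal x) (.ofReal p.1) (.ofReal (1 + p.1)) (.ofReal p.2)).toReal
/-- the edge weight -/
def Yf (p : ℝ × ℝ) : ℝ :=
  p.1 / (1 + p.1) - x * p.1 ^ 2 / (1 + x * p.1) - x * (1 + p.1) ^ 2 * (2 * p.2 + p.2 ^ 2) -
    2 * KK S x p
/-- the series `N3` -/
def Nf (p : ℝ × ℝ) : ℝ := (1 + p.1) ^ 3 * (1 + p.2 + AA S x p)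
/-- the value of `κ` -/
def kf (p : ℝ × ℝ) : ℝ :=
  1 + (Yf S x p - 2 * p.2) * (1 + x * (1 + p.1)) +
    p.2 * (1 + 3 * x * (1 + p.1) + x ^ 2 * Nf S x p)
/-- the inverse of the parametrisation, first component -/
def yf (p : ℝ × ℝ) : ℝ := (Yf S x p - 2 * p.2) / kf S x p ^ 2
/-- the inverse of the parametrisation, second component -/
def tf (p : ℝ × ℝ) : ℝ := p.2 / kf S x p ^ 3

variable {S x}

theorem diffs {q : ℝ × ℝ} (hx : 0 < x) (hq : 0 < q.1) (hK : DifferentiableAt ℝ (KK S x) q)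
    (hA : DifferentiableAt ℝ (AA S x) q) (hk : kf S x q ≠ 0) :
    DifferentiableAt ℝ (Yf S x) q ∧ DifferentiableAt ℝ (kf S x) q ∧
    DifferentiableAt ℝ (yf S x) q ∧ DifferentiableAt ℝ (tf S x) q := by
  have d1 : DifferentiableAt ℝ (fun p : ℝ × ℝ => p.1) q := differentiableAt_fst
  have d2 : DifferentiableAt ℝ (fun p : ℝ × ℝ => p.2) q := differentiableAt_snd
  have h1 : (1 + q.1) ≠ 0 := by positivity
  have h2 : (1 + x * q.1) ≠ 0 := by positivity
  have dY : DifferentiableAt ℝ (Yf S x) q := by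
    unfold Yf
    simp only [div_eq_mul_inv]
    have i1 : DifferentiableAt ℝ (fun p : ℝ × ℝ => (1 + p.1)⁻¹) q :=
      DifferentiableAt.inv (d1.const_add 1) h1
    have i2 : DifferentiableAt ℝ (fun p : ℝ × ℝ => (1 + x * p.1)⁻¹) q :=
      DifferentiableAt.inv ((d1.const_mul x).const_add 1) h2
    refine DifferentiableAt.sub (DifferentiableAt.sub (DifferentiableAt.sub ?_ ?_) ?_) ?_
    · exact d1.mul i1
    · exact ((d1.fun_pow 2).const_mul x).mul i2
    · exact (((d1.const_add 1).fun_pow 2).const_mul x).mul ((d2.const_mul 2).add (d2.fun_pow 2))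
    · exact hK.const_mul 2
  have dN : DifferentiableAt ℝ (Nf S x) q := by
    unfold Nf
    exact ((d1.const_add 1).fun_pow 3).mul ((d2.const_add 1).add hA)
  have dk : DifferentiableAt ℝ (kf S x) q := by
    unfold kf
    refine DifferentiableAt.add (DifferentiableAt.const_add 1 ?_) ?_
    · exact (dY.sub (d2.const_mul 2)).mul (((d1.const_add 1).const_mul x).const_add 1)
    · exact d2.mul ((((d1.const_add 1).const_mul (3 * x)).const_add 1).add (dN.const_mul (x ^ 2)))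
  refine ⟨dY, dk, ?_, ?_⟩
  · unfold yf
    simp only [div_eq_mul_inv]
    have i1 : DifferentiableAt ℝ (fun p : ℝ × ℝ => (kf S x p ^ 2)⁻¹) q :=
      DifferentiableAt.inv (dk.fun_pow 2) (pow_ne_zero _ hk)
    exact (dY.sub (d2.const_mul 2)).mul i1
  · unfold tf
    simp only [div_eq_mul_inv]
    have i1 : DifferentiableAt ℝ (fun p : ℝ × ℝ => (kf S x p ^ 3)⁻¹) q :=
      DifferentiableAt.inv (dk.fun_pow 3) (pow_ne_zero _ hk)
    exact d2.mul i1

theorem on_curve {Y T D N κ : ℝ} (hx : 0 < x) (hY : 0 ≤ Y) (hT : 0 ≤ T) (hD : 0 ≤ D)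
    (h1 : S.Dm (.ofReal x) (.ofReal Y) (.ofReal T) = .ofReal D)
    (h2 : S.N3 (.ofReal x) (.ofReal Y) (.ofReal T) = .ofReal N)
    (hκ : κ = 1 + (Y - 2 * T) * (1 + x * (1 + D)) + T * (1 + 3 * x * (1 + D) + x ^ 2 * N)) :
    Yf S x (D, T) = Y ∧ kf S x (D, T) = κ := by
  obtain ⟨k, a, hk0, ha0, hK, hA, e1, e2⟩ := S.meq_real hx hY hT hD h1 h2
  have eK : KK S x (D, T) = k := by
    unfold KK
    simp only
    rw [hK, ENNReal.toReal_ofReal hk0]
  have eA : AA S x (D, T) = a := by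
    unfold AA
    simp only
    rw [hA, ENNReal.toReal_ofReal ha0]
  have eY : Yf S x (D, T) = Y := by
    unfold Yf
    rw [eK]
    simp only
    linarith
  refine ⟨eY, ?_⟩
  unfold kf Nf
  rw [eY, eA]
  simp only
  rw [hκ, e2]

/-- A positive derivative gives larger values to the right. -/
theorem right_gt {f : ℝ → ℝ} {d : ℝ} (h : HasDerivAt f d 0) (hd : 0 < d) :
    ∀ᶠ e in 𝓝[>] (0 : ℝ), f 0 < f e := by
  have h1 := h.tendsto_slope_zero_right
  have h2 := h1.eventually (lt_mem_nhds hd)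
  filter_upwards [h2, self_mem_nhdsWithin] with e he he0
  have he0' : (0 : ℝ) < e := he0
  simp only [zero_add, smul_eq_mul] at he
  have h3 : 0 < e * (e⁻¹ * (f e - f 0)) := mul_pos he0' he
  rw [← mul_assoc, mul_inv_cancel₀ he0'.ne', one_mul] at h3
  linarith

theorem ofReal_expr {w Y U x t K : ℝ} (hw : 0 ≤ w) (hY : 0 ≤ Y) (hU : 0 ≤ U) (hx : 0 ≤ x)
    (ht : 0 ≤ t) (hK : 0 ≤ K) :
    ENNReal.ofReal (w * (Y + U + x * w ^ 2 * (2 * t + t ^ 2) + 2 * K)) =
      ENNReal.ofReal w * (ENNReal.ofReal Y + ENNReal.ofReal U + ENNReal.ofReal x *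
        ENNReal.ofReal w ^ 2 * (ENNReal.ofReal 2 * ENNReal.ofReal t + ENNReal.ofReal t ^ 2) +
        ENNReal.ofReal 2 * ENNReal.ofReal K) := by
  rw [ENNReal.ofReal_mul hw, ENNReal.ofReal_add (by positivity) (by positivity),
    ENNReal.ofReal_add (by positivity) (by positivity), ENNReal.ofReal_add hY hU,
    ENNReal.ofReal_mul (by positivity), ENNReal.ofReal_mul hx, ENNReal.ofReal_pow hw,
    ENNReal.ofReal_add (by positivity) (by positivity), ENNReal.ofReal_mul (by norm_num),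
    ENNReal.ofReal_pow ht, ENNReal.ofReal_mul (by norm_num)]

end CL

open CL in
/-- The crossing lemma. -/
theorem Sys.cl (S : Sys) {r s y t : ℝ} (h : Crit r s y t) (hD : 0 < pD r s y t) {z1 t1 : ℝ}
    (hz : pD r s y t < z1) (ht : pT r s y t < t1)
    (hK : ser S.kc (.ofReal (px r s y t)) (.ofReal z1) (.ofReal (1 + z1)) (.ofReal t1) ≠ ∞)
    (hA : ser S.ac (.ofReal (px r s y t)) (.ofReal z1) (.ofReal (1 + z1)) (.ofReal t1) ≠ ∞) :
    False := by
  obtain ⟨z, n, κ, dz, dκ, hz', hκ', hz1, hκ1, hl⟩ := S.hAR r s y t h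
  set x := px r s y t with hxdef
  have hx : 0 < x := h.x_pos
  have hkap : 0 < pkap r s y t := by rw [← hκ1]; exact (hl 1 one_pos le_rfl).1
  have hT0 : 0 < pT r s y t := mul_pos h.t_pos (pow_pos hkap 3)
  set q : ℝ × ℝ := (pD r s y t, pT r s y t) with hq
  -- the curve
  set c : ℝ → ℝ × ℝ := fun l => (z l, l * t * κ l ^ 3) with hc
  have hc1 : c 1 = q := by
    simp only [hc, hq, hz1, hκ1, pT, one_mul]
  have hcurve : ∀ l : ℝ, 0 < l → l ≤ 1 → Yf S x (c l) = l * y * κ l ^ 2 + 2 * (l * t * κ l ^ 3) ∧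
      kf S x (c l) = κ l := by
    intro l hl0 hl1
    obtain ⟨k0, z0, n0, e1, e2, e3⟩ := hl l hl0 hl1
    have hy0 := h.y_pos
    have ht0 := h.t_pos
    refine on_curve hx (by positivity) (by positivity) z0 e1 e2 ?_
    rw [show l * y * κ l ^ 2 + 2 * (l * t * κ l ^ 3) - 2 * (l * t * κ l ^ 3) =
      l * y * κ l ^ 2 by ring]
    exact e3
  have hyc : ∀ l : ℝ, 0 < l → l ≤ 1 → yf S x (c l) = l * y ∧ tf S x (c l) = l * t := by
    intro l hl0 hl1
    obtain ⟨e1, e2⟩ := hcurve l hl0 hl1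
    have k0 := (hl l hl0 hl1).1
    unfold yf tf
    rw [e1, e2]
    simp only [hc]
    constructor
    · rw [show l * y * κ l ^ 2 + 2 * (l * t * κ l ^ 3) - 2 * (l * t * κ l ^ 3) =
        l * y * κ l ^ 2 by ring, mul_div_assoc, div_self (pow_ne_zero _ k0.ne'), mul_one]
    · rw [mul_div_assoc, div_self (pow_ne_zero _ k0.ne'), mul_one]
  have hkq : kf S x q = pkap r s y t := by
    rw [← hc1, (hcurve 1 one_pos le_rfl).2, hκ1]
  have hYq : Yf S x q - 2 * q.2 = y * pkap r s y t ^ 2 := by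
    have := (hcurve 1 one_pos le_rfl).1
    rw [hc1, hκ1] at this
    rw [this]
    simp only [hq, pT]
    ring
  have hyq : yf S x q = y := by rw [← hc1, (hyc 1 one_pos le_rfl).1, one_mul]
  have htq : tf S x q = t := by rw [← hc1, (hyc 1 one_pos le_rfl).2, one_mul]
  -- differentiability
  have dK : DifferentiableAt ℝ (KK S x) q := ser_diff S.kc hx hD hz hT0 ht hK
  have dA : DifferentiableAt ℝ (AA S x) q := ser_diff S.ac hx hD hz hT0 ht hA
  obtain ⟨dY, dk, dy, dt⟩ := diffs hx hD dK dA (by rw [hkq]; exact hkap.ne')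
  set v : ℝ × ℝ := (dz, (1 * t) * κ 1 ^ 3 + 1 * t * (3 * κ 1 ^ 2 * dκ)) with hv
  have hcd : HasDerivWithinAt c v (Set.Iic 1) 1 := by
    have e1 : HasDerivWithinAt (fun l : ℝ => l * t) (1 * t) (Set.Iic 1) 1 :=
      (hasDerivWithinAt_id 1 _).mul_const t
    have e2 : HasDerivWithinAt (fun l : ℝ => κ l ^ 3) (3 * κ 1 ^ 2 * dκ) (Set.Iic 1) 1 := by
      simpa using hκ'.fun_pow 3
    exact hz'.prodMk (e1.mul e2)
  have hnear : ∀ᶠ l in 𝓝[Set.Iic 1] (1 : ℝ), 0 < l ∧ l ≤ 1 := by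
    filter_upwards [self_mem_nhdsWithin, mem_nhdsWithin_of_mem_nhds (lt_mem_nhds one_pos)]
      with l h1 h2
    exact ⟨h2, h1⟩
  have huniq : UniqueDiffWithinAt ℝ (Set.Iic (1 : ℝ)) 1 := uniqueDiffWithinAt_Iic 1
  have hy' : fderiv ℝ (yf S x) q v = y := by
    have e1 : HasDerivWithinAt (yf S x ∘ c) (fderiv ℝ (yf S x) q v) (Set.Iic 1) 1 := by
      have : HasFDerivAt (yf S x) (fderiv ℝ (yf S x) q) (c 1) := by
        rw [hc1]; exact dy.hasFDerivAt
      exact this.comp_hasDerivWithinAt 1 hcd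
    have e2 : HasDerivWithinAt (yf S x ∘ c) y (Set.Iic 1) 1 := by
      have e3 : HasDerivWithinAt (fun l : ℝ => l * y) (1 * y) (Set.Iic 1) 1 :=
        (hasDerivWithinAt_id 1 _).mul_const y
      rw [one_mul] at e3
      refine e3.congr_of_eventuallyEq ?_ ?_
      · filter_upwards [hnear] with l h1
        exact (hyc l h1.1 h1.2).1
      · exact (hyc 1 one_pos le_rfl).1
    exact huniq.eq_deriv _ e1 e2
  have ht' : fderiv ℝ (tf S x) q v = t := by
    have e1 : HasDerivWithinAt (tf S x ∘ c) (fderiv ℝ (tf S x) q v) (Set.Iic 1) 1 := by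
      have : HasFDerivAt (tf S x) (fderiv ℝ (tf S x) q) (c 1) := by
        rw [hc1]; exact dt.hasFDerivAt
      exact this.comp_hasDerivWithinAt 1 hcd
    have e2 : HasDerivWithinAt (tf S x ∘ c) t (Set.Iic 1) 1 := by
      have e3 : HasDerivWithinAt (fun l : ℝ => l * t) (1 * t) (Set.Iic 1) 1 :=
        (hasDerivWithinAt_id 1 _).mul_const t
      rw [one_mul] at e3
      refine e3.congr_of_eventuallyEq ?_ ?_
      · filter_upwards [hnear] with l h1
        exact (hyc l h1.1 h1.2).2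
      · exact (hyc 1 one_pos le_rfl).2
    exact huniq.eq_deriv _ e1 e2
  -- the line beyond the critical point
  have hline : HasDerivAt (fun e : ℝ => q + e • v) v 0 := by
    have := ((hasDerivAt_id (0 : ℝ)).smul_const v).const_add q
    simpa using this
  have hq0 : q + (0 : ℝ) • v = q := by simp
  have hly : HasDerivAt (fun e : ℝ => yf S x (q + e • v)) y 0 := by
    have : HasFDerivAt (yf S x) (fderiv ℝ (yf S x) q) (q + (0 : ℝ) • v) := by
      rw [hq0]; exact dy.hasFDerivAt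
    have h2 := this.comp_hasDerivAt 0 hline
    rwa [hy'] at h2
  have hlt : HasDerivAt (fun e : ℝ => tf S x (q + e • v)) t 0 := by
    have : HasFDerivAt (tf S x) (fderiv ℝ (tf S x) q) (q + (0 : ℝ) • v) := by
      rw [hq0]; exact dt.hasFDerivAt
    have h2 := this.comp_hasDerivAt 0 hline
    rwa [ht'] at h2
  have hcont : Filter.Tendsto (fun e : ℝ => q + e • v) (𝓝[>] 0) (𝓝 q) := by
    have := hline.continuousAt.tendsto
    rw [hq0] at this
    exact this.mono_left nhdsWithin_le_nhds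
  have c1 : ∀ᶠ e in 𝓝[>] (0 : ℝ), 0 < (q + e • v).1 :=
    hcont.eventually ((continuous_fst.continuousAt (x := q)).eventually (lt_mem_nhds hD))
  have c2 : ∀ᶠ e in 𝓝[>] (0 : ℝ), (q + e • v).1 < z1 :=
    hcont.eventually ((continuous_fst.continuousAt (x := q)).eventually (gt_mem_nhds hz))
  have c3 : ∀ᶠ e in 𝓝[>] (0 : ℝ), 0 < (q + e • v).2 :=
    hcont.eventually ((continuous_snd.continuousAt (x := q)).eventually (lt_mem_nhds hT0))
  have c4 : ∀ᶠ e in 𝓝[>] (0 : ℝ), (q + e • v).2 < t1 :=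
    hcont.eventually ((continuous_snd.continuousAt (x := q)).eventually (gt_mem_nhds ht))
  have c5 : ∀ᶠ e in 𝓝[>] (0 : ℝ), 0 < Yf S x (q + e • v) - 2 * (q + e • v).2 := by
    have hc' : ContinuousAt (fun p : ℝ × ℝ => Yf S x p - 2 * p.2) q :=
      dY.continuousAt.sub (continuousAt_const.mul continuous_snd.continuousAt)
    have hpos : 0 < Yf S x q - 2 * q.2 := by
      rw [hYq]; exact mul_pos h.y_pos (pow_pos hkap 2)
    exact hcont.eventually (hc'.eventually (lt_mem_nhds hpos))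
  have c6 := right_gt hly h.y_pos
  have c7 := right_gt hlt h.t_pos
  obtain ⟨e, ⟨⟨⟨⟨⟨⟨d1, d2⟩, d3⟩, d4⟩, d5⟩, d6⟩, d7⟩⟩ :=
    ((((((c1.and c2).and c3).and c4).and c5).and c6).and c7).exists
  set p : ℝ × ℝ := q + e • v with hp
  rw [hq0, hyq] at d6
  rw [hq0, htq] at d7
  -- finiteness at `p`
  have monoz : ENNReal.ofReal p.1 ≤ ENNReal.ofReal z1 := ENNReal.ofReal_le_ofReal d2.le
  have monoz' : ENNReal.ofReal (1 + p.1) ≤ ENNReal.ofReal (1 + z1) :=
    ENNReal.ofReal_le_ofReal (by linarith)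
  have monot : ENNReal.ofReal p.2 ≤ ENNReal.ofReal t1 := ENNReal.ofReal_le_ofReal d4.le
  have fK : ser S.kc (.ofReal x) (.ofReal p.1) (.ofReal (1 + p.1)) (.ofReal p.2) ≠ ∞ :=
    ne_top_of_le_ne_top hK (ser_mono _ le_rfl monoz monoz' monot)
  have fA : ser S.ac (.ofReal x) (.ofReal p.1) (.ofReal (1 + p.1)) (.ofReal p.2) ≠ ∞ :=
    ne_top_of_le_ne_top hA (ser_mono _ le_rfl monoz monoz' monot)
  have eK : ser S.kc (.ofReal x) (.ofReal p.1) (.ofReal (1 + p.1)) (.ofReal p.2) =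
      ENNReal.ofReal (KK S x p) := (ENNReal.ofReal_toReal fK).symm
  have eA : ser S.ac (.ofReal x) (.ofReal p.1) (.ofReal (1 + p.1)) (.ofReal p.2) =
      ENNReal.ofReal (AA S x p) := (ENNReal.ofReal_toReal fA).symm
  have hKK : 0 ≤ KK S x p := ENNReal.toReal_nonneg
  have hAA : 0 ≤ AA S x p := ENNReal.toReal_nonneg
  have hYp : 0 < Yf S x p := by linarith
  have o1 : (1 : ℝ≥0∞) + ENNReal.ofReal p.1 = ENNReal.ofReal (1 + p.1) := by
    rw [ENNReal.ofReal_add zero_le_one d1.le, ENNReal.ofReal_one]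
  -- the supersolution
  have hsup : S.Dm (.ofReal x) (.ofReal (Yf S x p)) (.ofReal p.2) ≤ ENNReal.ofReal p.1 := by
    refine S.hMsup (.ofReal x) (.ofReal (Yf S x p)) (.ofReal p.2) (.ofReal p.1)
      (.ofReal (x * p.1 ^ 2 / (1 + x * p.1))) ENNReal.ofReal_ne_top ENNReal.ofReal_ne_top
      ENNReal.ofReal_ne_top ENNReal.ofReal_ne_top ?_ ?_
    · have hxp : 0 < 1 + x * p.1 := by positivity
      rw [← ENNReal.ofReal_mul hx.le, ← ENNReal.ofReal_one,
        ← ENNReal.ofReal_add zero_le_one (by positivity), ← ENNReal.ofReal_mul (by positivity),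
        ← ENNReal.ofReal_pow d1.le, ← ENNReal.ofReal_mul hx.le]
      congr 1
      field_simp
    · have hxp : 0 < 1 + x * p.1 := by positivity
      have h2' : (2 : ℝ≥0∞) = ENNReal.ofReal 2 := by simp
      have hz0 : (0 : ℝ) ≤ p.1 := d1.le
      have ht0 : (0 : ℝ) ≤ p.2 := d3.le
      have e9 : (1 + p.1) * (Yf S x p + x * p.1 ^ 2 / (1 + x * p.1) +
          x * (1 + p.1) ^ 2 * (2 * p.2 + p.2 ^ 2) + 2 * KK S x p) = p.1 := by
        unfold Yf
        field_simp
        ring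
      have e10 : ENNReal.ofReal p.1 = ENNReal.ofReal (1 + p.1) * (ENNReal.ofReal (Yf S x p) +
          ENNReal.ofReal (x * p.1 ^ 2 / (1 + x * p.1)) + ENNReal.ofReal x *
          ENNReal.ofReal (1 + p.1) ^ 2 * (ENNReal.ofReal 2 * ENNReal.ofReal p.2 +
          ENNReal.ofReal p.2 ^ 2) + ENNReal.ofReal 2 * ENNReal.ofReal (KK S x p)) := by
        conv_lhs => rw [← e9]
        exact ofReal_expr (by positivity) hYp.le (by positivity) hx.le ht0 hKK
      rw [o1, eK, h2', ← e10]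
  have hDne : S.Dm (.ofReal x) (.ofReal (Yf S x p)) (.ofReal p.2) ≠ ∞ :=
    ne_top_of_le_ne_top ENNReal.ofReal_ne_top hsup
  obtain ⟨_, -, -, hN⟩ := S.hMeq (.ofReal x) (.ofReal (Yf S x p)) (.ofReal p.2)
    (by simpa using hx) ENNReal.ofReal_ne_top ENNReal.ofReal_ne_top ENNReal.ofReal_ne_top hDne
  have hNle : S.N3 (.ofReal x) (.ofReal (Yf S x p)) (.ofReal p.2) ≤ ENNReal.ofReal (Nf S x p) := by
    rw [hN]
    unfold Nf
    have h1' : (1 : ℝ≥0∞) + S.Dm (.ofReal x) (.ofReal (Yf S x p)) (.ofReal p.2) ≤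
        ENNReal.ofReal (1 + p.1) := by
      rw [← o1]; gcongr
    have h2' : ser S.ac (.ofReal x) (S.Dm (.ofReal x) (.ofReal (Yf S x p)) (.ofReal p.2))
        (1 + S.Dm (.ofReal x) (.ofReal (Yf S x p)) (.ofReal p.2)) (.ofReal p.2) ≤
        ENNReal.ofReal (AA S x p) := by
      rw [← eA]
      exact ser_mono _ le_rfl hsup h1' le_rfl
    have h3' : ENNReal.ofReal ((1 + p.1) ^ 3 * (1 + p.2 + AA S x p)) =
        ENNReal.ofReal (1 + p.1) ^ 3 * (1 + ENNReal.ofReal p.2 + ENNReal.ofReal (AA S x p)) := by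
      rw [ENNReal.ofReal_mul (by positivity), ENNReal.ofReal_pow (by positivity),
        ENNReal.ofReal_add (by positivity) hAA, ENNReal.ofReal_add zero_le_one d3.le,
        ENNReal.ofReal_one]
    rw [h3']
    gcongr
  have hNne : S.N3 (.ofReal x) (.ofReal (Yf S x p)) (.ofReal p.2) ≠ ∞ :=
    ne_top_of_le_ne_top ENNReal.ofReal_ne_top hNle
  set D0 := (S.Dm (.ofReal x) (.ofReal (Yf S x p)) (.ofReal p.2)).toReal with hD0
  set N0 := (S.N3 (.ofReal x) (.ofReal (Yf S x p)) (.ofReal p.2)).toReal with hN0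
  have hD0le : D0 ≤ p.1 := by
    have := ENNReal.toReal_mono ENNReal.ofReal_ne_top hsup
    rwa [ENNReal.toReal_ofReal d1.le] at this
  have hN0le : N0 ≤ Nf S x p := by
    have := ENNReal.toReal_mono ENNReal.ofReal_ne_top hNle
    rwa [ENNReal.toReal_ofReal (by unfold Nf; positivity)] at this
  have hD0' : 0 ≤ D0 := ENNReal.toReal_nonneg
  have hN0' : 0 ≤ N0 := ENNReal.toReal_nonneg
  have hfin := S.hAX r s y t h (Yf S x p) p.2 D0 N0 d3 (by linarith) hD0' hN0'
    (ENNReal.ofReal_toReal hDne).symm (ENNReal.ofReal_toReal hNne).symm _ rfl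
  apply hfin
  set κ0 := 1 + (Yf S x p - 2 * p.2) * (1 + px r s y t * (1 + D0)) +
      p.2 * (1 + 3 * px r s y t * (1 + D0) + px r s y t ^ 2 * N0) with hκ0
  have hκ0pos : 0 < κ0 := by
    have : 0 < px r s y t := hx
    positivity
  have hκ0le : κ0 ≤ kf S x p := by
    unfold kf
    rw [hκ0, ← hxdef]
    gcongr
  constructor
  · refine lt_of_lt_of_le d6 ?_
    unfold yf
    gcongr
  · refine lt_of_lt_of_le d7 ?_
    unfold tf
    gcongr

end

end K5N
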