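import Pool.Agent.Lib.K5N.Sys

/-!
# K5N.Par : values of the core series at the parameter points
-/

namespace K5N

open scoped ENNReal

noncomputable section

/-- value of `K~` at a parameter point -/
def pK (r s y t : ℝ) : ℝ :=
  (pD r s y t / (1 + pD r s y t) - pY r s y t -
    px r s y t * pD r s y t ^ 2 / (1 + px r s y t * pD r s y t) -
    px r s y t * (1 + pD r s y t) ^ 2 * (2 * pT r s y t + pT r s y t ^ 2)) / 2

/-- value of `A~` at a parameter point -/
def pA (r s y t : ℝ) : ℝ := pN r s y t / (1 + pD r s y t) ^ 3 - 1 - pT r s y t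

theorem ser_mono (c : ℕ → ℕ → ℕ → ℕ → ℝ≥0∞) {x z w t x' z' w' t' : ℝ≥0∞} (hx : x ≤ x') (hz : z ≤ z')
    (hw : w ≤ w') (ht : t ≤ t') : ser c x z w t ≤ ser c x' z' w' t' := by
  unfold ser
  refine ENNReal.tsum_le_tsum fun m => ?_
  gcongr

/-- The real form of the equation of the map networks. -/
theorem Sys.meq_real (S : Sys) {x Y T D N : ℝ} (hx0 : 0 < x) (hY : 0 ≤ Y) (hT : 0 ≤ T) (hD : 0 ≤ D)
    (h1 : S.Dm (.ofReal x) (.ofReal Y) (.ofReal T) = .ofReal D)
    (h2 : S.N3 (.ofReal x) (.ofReal Y) (.ofReal T) = .ofReal N) :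
    ∃ k a : ℝ, 0 ≤ k ∧ 0 ≤ a ∧
      ser S.kc (.ofReal x) (.ofReal D) (.ofReal (1 + D)) (.ofReal T) = .ofReal k ∧
      ser S.ac (.ofReal x) (.ofReal D) (.ofReal (1 + D)) (.ofReal T) = .ofReal a ∧
      2 * k = D / (1 + D) - Y - x * D ^ 2 / (1 + x * D) - x * (1 + D) ^ 2 * (2 * T + T ^ 2) ∧
      N = (1 + D) ^ 3 * (1 + T + a) := by
  have hx : 0 ≤ x := hx0.le
  obtain ⟨U, hU, hK, hA⟩ := S.hMeq (.ofReal x) (.ofReal Y) (.ofReal T)
    (by simpa using hx0) ENNReal.ofReal_ne_top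
    ENNReal.ofReal_ne_top ENNReal.ofReal_ne_top (by rw [h1]; exact ENNReal.ofReal_ne_top)
  rw [h1] at hU hK hA
  rw [h2] at hA
  have e1 : (1 : ℝ≥0∞) + ENNReal.ofReal D = ENNReal.ofReal (1 + D) := by
    rw [ENNReal.ofReal_add zero_le_one hD, ENNReal.ofReal_one]
  rw [e1] at hK hA
  -- the series part
  have e2 : (1 : ℝ≥0∞) + ENNReal.ofReal x * ENNReal.ofReal D = ENNReal.ofReal (1 + x * D) := by
    rw [ENNReal.ofReal_add zero_le_one (by positivity), ENNReal.ofReal_one, ENNReal.ofReal_mul hx]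
  have hxD : 0 < 1 + x * D := by positivity
  have hUne : U ≠ ∞ := by
    intro h
    rw [h, e2, ENNReal.top_mul (by simpa using hxD)] at hU
    exact ENNReal.mul_ne_top ENNReal.ofReal_ne_top (ENNReal.pow_ne_top ENNReal.ofReal_ne_top) hU.symm
  have hUr : U.toReal = x * D ^ 2 / (1 + x * D) := by
    have h := congrArg ENNReal.toReal hU
    rw [e2, ENNReal.toReal_mul, ENNReal.toReal_mul, ENNReal.toReal_pow,
      ENNReal.toReal_ofReal hxD.le, ENNReal.toReal_ofReal hx, ENNReal.toReal_ofReal hD] at h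
    rw [eq_div_iff hxD.ne', h]
  have hD1 : 0 < 1 + D := by positivity
  -- finiteness
  set K := ser S.kc (.ofReal x) (.ofReal D) (.ofReal (1 + D)) (.ofReal T) with hKdef
  set A := ser S.ac (.ofReal x) (.ofReal D) (.ofReal (1 + D)) (.ofReal T) with hAdef
  have hKne : K ≠ ∞ := by
    intro h
    rw [h, ENNReal.mul_top (by norm_num), add_top, ENNReal.mul_top (by simpa using hD1)] at hK
    exact ENNReal.ofReal_ne_top hK
  have hAne : A ≠ ∞ := by
    intro h
    rw [h, add_top, ENNReal.mul_top (pow_ne_zero _ (by simpa using hD1))] at hA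
    exact ENNReal.ofReal_ne_top hA
  refine ⟨K.toReal, A.toReal, ENNReal.toReal_nonneg, ENNReal.toReal_nonneg,
    (ENNReal.ofReal_toReal hKne).symm, (ENNReal.ofReal_toReal hAne).symm, ?_, ?_⟩
  · have h := congrArg ENNReal.toReal hK
    have f1 : ENNReal.ofReal x * ENNReal.ofReal (1 + D) ^ 2 *
        (2 * ENNReal.ofReal T + ENNReal.ofReal T ^ 2) ≠ ∞ :=
      ENNReal.mul_ne_top (ENNReal.mul_ne_top ENNReal.ofReal_ne_top
        (ENNReal.pow_ne_top ENNReal.ofReal_ne_top)) (ENNReal.add_ne_top.2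
        ⟨ENNReal.mul_ne_top (by norm_num) ENNReal.ofReal_ne_top,
          ENNReal.pow_ne_top ENNReal.ofReal_ne_top⟩)
    have f2 : (2 : ℝ≥0∞) * K ≠ ∞ := ENNReal.mul_ne_top (by norm_num) hKne
    have f3 : ENNReal.ofReal Y + U ≠ ∞ := ENNReal.add_ne_top.2 ⟨ENNReal.ofReal_ne_top, hUne⟩
    rw [ENNReal.toReal_mul, ENNReal.toReal_add (ENNReal.add_ne_top.2 ⟨f3, f1⟩) f2,
      ENNReal.toReal_add f3 f1, ENNReal.toReal_add ENNReal.ofReal_ne_top hUne,
      ENNReal.toReal_mul, ENNReal.toReal_mul, ENNReal.toReal_pow,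
      ENNReal.toReal_add (ENNReal.mul_ne_top (by norm_num) ENNReal.ofReal_ne_top)
        (ENNReal.pow_ne_top ENNReal.ofReal_ne_top), ENNReal.toReal_mul, ENNReal.toReal_mul,
      ENNReal.toReal_pow, ENNReal.toReal_ofReal hx, ENNReal.toReal_ofReal hD,
      ENNReal.toReal_ofReal hD1.le, ENNReal.toReal_ofReal hY, ENNReal.toReal_ofReal hT, hUr,
      ENNReal.toReal_ofNat] at h
    have h' : D / (1 + D) = Y + x * D ^ 2 / (1 + x * D) + x * (1 + D) ^ 2 * (2 * T + T ^ 2) +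
        2 * K.toReal := by
      rw [div_eq_iff hD1.ne']
      linarith [h]
    linarith
  · have h := congrArg ENNReal.toReal hA
    have hA1 : (1 : ℝ≥0∞) + ENNReal.ofReal T ≠ ∞ :=
      ENNReal.add_ne_top.2 ⟨ENNReal.one_ne_top, ENNReal.ofReal_ne_top⟩
    have hN : 0 ≤ N := by
      by_contra hN
      rw [ENNReal.ofReal_of_nonpos (le_of_not_ge hN)] at hA
      have : (0 : ℝ≥0∞) < ENNReal.ofReal (1 + D) ^ 3 * (1 + ENNReal.ofReal T + A) := by
        refine ENNReal.mul_pos (pow_ne_zero _ (by simpa using hD1)) ?_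
        rw [add_assoc]
        exact (add_pos_of_pos_of_nonneg one_pos bot_le).ne'
      exact this.ne hA
    rw [ENNReal.toReal_mul, ENNReal.toReal_add hA1 hAne, ENNReal.toReal_add ENNReal.one_ne_top
      ENNReal.ofReal_ne_top, ENNReal.toReal_pow, ENNReal.toReal_ofReal hN,
      ENNReal.toReal_ofReal hD1.le, ENNReal.toReal_ofReal hT, ENNReal.toReal_one] at h
    exact h

theorem pT_nonneg {r s y t : ℝ} (h : Good r s y t) (hk : 0 < pkap r s y t) : 0 ≤ pT r s y t :=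
  mul_nonneg h.t_nonneg (pow_pos hk 3).le

theorem pY_nonneg {r s y t : ℝ} (h : Good r s y t) (hk : 0 < pkap r s y t) : 0 ≤ pY r s y t :=
  add_nonneg (mul_nonneg h.y_nonneg (pow_pos hk 2).le) (mul_nonneg two_pos.le (pT_nonneg h hk))

/-- Exact values of the core series at an admissible point. -/
theorem Sys.vals (S : Sys) {r s y t : ℝ} (h : Good r s y t) (hD : 0 ≤ pD r s y t) :
    0 ≤ pT r s y t ∧ 0 ≤ pK r s y t ∧ 0 ≤ pA r s y t ∧
    ser S.kc (.ofReal (px r s y t)) (.ofReal (pD r s y t)) (.ofReal (1 + pD r s y t))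
      (.ofReal (pT r s y t)) = .ofReal (pK r s y t) ∧
    ser S.ac (.ofReal (px r s y t)) (.ofReal (pD r s y t)) (.ofReal (1 + pD r s y t))
      (.ofReal (pT r s y t)) = .ofReal (pA r s y t) := by
  obtain ⟨hk, h1, h2⟩ := S.hAS r s y t h
  obtain ⟨k, a, hk0, ha0, hK, hA, e1, e2⟩ := S.meq_real h.x_pos (pY_nonneg h hk) (pT_nonneg h hk)
    hD h1 h2
  have hD1 : (0 : ℝ) < (1 + pD r s y t) ^ 3 := by positivity
  have ek : pK r s y t = k := by unfold pK; linarith
  have ea : pA r s y t = a := by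
    unfold pA
    rw [e2, mul_comm, mul_div_assoc, div_self hD1.ne']
    ring
  exact ⟨pT_nonneg h hk, ek ▸ hk0, ea ▸ ha0, ek ▸ hK, ea ▸ hA⟩

theorem pD_eq {r s y t : ℝ} (hx : px r s y t ≠ 0) (hw : pw1 r s y t ≠ 0) :
    pD r s y t = pw2 r s y t / pw1 r s y t ^ 2 - 1 / px r s y t - 1 := by
  unfold pD pkap
  field_simp

theorem pN_eq {r s y t : ℝ} (hx : px r s y t ≠ 0) (hw : pw1 r s y t ≠ 0) :
    pN r s y t = pw3 r s y t / pw1 r s y t ^ 3 - 3 * (1 + pD r s y t) / px r s y t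
      - 1 / px r s y t ^ 2 := by
  unfold pN pkap
  field_simp

end

end K5N
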