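import Pool.Agent.Lib.K5N.Par

/-!
# K5N.SerDiff : differentiability of the core series inside their domain
-/

namespace K5N

open scoped ENNReal

noncomputable section

namespace SerDiff

theorem pow_bound {p z1 : ℝ} (hp : 0 ≤ p) (h : p ≤ z1) (i : ℕ) :
    (i : ℝ) * p ^ (i - 1) * (z1 - p) ≤ z1 ^ i := by
  have key : ∀ i : ℕ, (i : ℝ) * p ^ (i - 1) * (z1 - p) ≤ z1 ^ i - p ^ i := by
    intro i
    induction i with
    | zero => simp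
    | succ n ih =>
      rcases Nat.eq_zero_or_pos n with h0 | h0
      · subst h0; simp
      · have e1 : z1 ^ (n + 1) - p ^ (n + 1) = z1 * (z1 ^ n - p ^ n) + p ^ n * (z1 - p) := by ring
        have e2 : p ^ n = p * p ^ (n - 1) := by
          rw [← pow_succ']; congr 1; omega
        have h1 : 0 ≤ z1 ^ n - p ^ n := sub_nonneg.2 (pow_le_pow_left₀ hp h n)
        have h2 : p * (z1 ^ n - p ^ n) ≤ z1 * (z1 ^ n - p ^ n) := mul_le_mul_of_nonneg_right h h1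
        have h3 : p * ((n : ℝ) * p ^ (n - 1) * (z1 - p)) ≤ p * (z1 ^ n - p ^ n) :=
          mul_le_mul_of_nonneg_left ih hp
        rw [e1]
        simp only [Nat.add_sub_cancel, Nat.cast_add, Nat.cast_one]
        have e3 : ((n : ℝ) + 1) * p ^ n * (z1 - p) =
            p * ((n : ℝ) * p ^ (n - 1) * (z1 - p)) + p ^ n * (z1 - p) := by
          rw [e2]; ring
        rw [e3]
        linarith
  have := key i
  have h1 : 0 ≤ p ^ i := pow_nonneg hp i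
  linarith

theorem pow_bound' {p z2 z1 : ℝ} (hp : 0 ≤ p) (h : p ≤ z2) (h2 : z2 < z1) (i : ℕ) :
    (i : ℝ) * p ^ (i - 1) ≤ z1 ^ i / (z1 - z2) := by
  rw [le_div_iff₀ (by linarith)]
  refine le_trans ?_ (pow_bound hp (h.trans h2.le) i)
  exact mul_le_mul_of_nonneg_left (by linarith) (by positivity)

end SerDiff

open SerDiff in
/-- The series is differentiable in `(z, t)` inside its domain of finiteness. -/
theorem ser_diff (c : ℕ → ℕ → ℕ → ℕ → ℝ≥0∞) {x z1 t1 z t : ℝ} (hx : 0 < x) (hz : 0 < z)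
    (hzz : z < z1) (ht : 0 < t) (htt : t < t1)
    (hfin : ser c (.ofReal x) (.ofReal z1) (.ofReal (1 + z1)) (.ofReal t1) ≠ ∞) :
    DifferentiableAt ℝ (fun p : ℝ × ℝ =>
      (ser c (.ofReal x) (.ofReal p.1) (.ofReal (1 + p.1)) (.ofReal p.2)).toReal) (z, t) := by
  have hz1 : 0 < z1 := hz.trans hzz
  have ht1 : 0 < t1 := ht.trans htt
  -- the coefficients are finite
  have hc : ∀ m : ℕ × ℕ × ℕ × ℕ, c m.1 m.2.1 m.2.2.1 m.2.2.2 ≠ ∞ := by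
    intro m h
    apply hfin
    unfold ser
    refine ENNReal.tsum_eq_top_of_eq_top ⟨m, ?_⟩
    rw [h]
    have p1 : ENNReal.ofReal x ^ m.1 ≠ 0 := pow_ne_zero _ (by simpa using hx)
    have p2 : ENNReal.ofReal z1 ^ m.2.1 ≠ 0 := pow_ne_zero _ (by simpa using hz1)
    have p3 : ENNReal.ofReal (1 + z1) ^ m.2.2.1 ≠ 0 := pow_ne_zero _ (by
      have : 0 < 1 + z1 := by positivity
      simpa using this)
    have p4 : ENNReal.ofReal t1 ^ m.2.2.2 ≠ 0 := pow_ne_zero _ (by simpa using ht1)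
    rw [ENNReal.top_mul p1, ENNReal.top_mul p2, ENNReal.top_mul p3, ENNReal.top_mul p4]
  set a : ℕ × ℕ × ℕ × ℕ → ℝ := fun m => (c m.1 m.2.1 m.2.2.1 m.2.2.2).toReal * x ^ m.1 with ha
  have ha0 : ∀ m, 0 ≤ a m := fun m => mul_nonneg ENNReal.toReal_nonneg (pow_nonneg hx.le _)
  set f : ℕ × ℕ × ℕ × ℕ → ℝ × ℝ → ℝ :=
    fun m p => a m * p.1 ^ m.2.1 * (1 + p.1) ^ m.2.2.1 * p.2 ^ m.2.2.2 with hf
  -- real form of the series
  have hterm : ∀ p : ℝ × ℝ, 0 ≤ p.1 → 0 ≤ p.2 → ∀ m : ℕ × ℕ × ℕ × ℕ,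
      (c m.1 m.2.1 m.2.2.1 m.2.2.2 * ENNReal.ofReal x ^ m.1 * ENNReal.ofReal p.1 ^ m.2.1 *
        ENNReal.ofReal (1 + p.1) ^ m.2.2.1 * ENNReal.ofReal p.2 ^ m.2.2.2).toReal = f m p := by
    intro p h1 h2 m
    simp only [hf, ha, ENNReal.toReal_mul, ENNReal.toReal_pow, ENNReal.toReal_ofReal hx.le,
      ENNReal.toReal_ofReal h1, ENNReal.toReal_ofReal h2,
      ENNReal.toReal_ofReal (by positivity : (0 : ℝ) ≤ 1 + p.1)]
  have hser : ∀ p : ℝ × ℝ, 0 ≤ p.1 → 0 ≤ p.2 →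
      (ser c (.ofReal x) (.ofReal p.1) (.ofReal (1 + p.1)) (.ofReal p.2)).toReal =
        ∑' m, f m p := by
    intro p h1 h2
    unfold ser
    rw [ENNReal.tsum_toReal_eq]
    · exact tsum_congr (hterm p h1 h2)
    · intro m
      exact ENNReal.mul_ne_top (ENNReal.mul_ne_top (ENNReal.mul_ne_top (ENNReal.mul_ne_top (hc m)
        (ENNReal.pow_ne_top ENNReal.ofReal_ne_top)) (ENNReal.pow_ne_top ENNReal.ofReal_ne_top))
        (ENNReal.pow_ne_top ENNReal.ofReal_ne_top)) (ENNReal.pow_ne_top ENNReal.ofReal_ne_top)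
  have hsum : ∀ p : ℝ × ℝ, 0 ≤ p.1 → 0 ≤ p.2 → p.1 ≤ z1 → p.2 ≤ t1 → Summable fun m => f m p := by
    intro p h1 h2 h3 h4
    have hh : ser c (.ofReal x) (.ofReal p.1) (.ofReal (1 + p.1)) (.ofReal p.2) ≠ ∞ := by
      refine ne_top_of_le_ne_top hfin (ser_mono c le_rfl ?_ ?_ ?_)
      · exact ENNReal.ofReal_le_ofReal h3
      · exact ENNReal.ofReal_le_ofReal (by linarith)
      · exact ENNReal.ofReal_le_ofReal h4
    have := ENNReal.summable_toReal hh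
    exact this.congr (hterm p h1 h2)
  obtain ⟨z2, hz2, hz21⟩ := exists_between hzz
  obtain ⟨t2, ht2, ht21⟩ := exists_between htt
  set s : Set (ℝ × ℝ) := Set.Ioo 0 z2 ×ˢ Set.Ioo 0 t2 with hs
  have hso : IsOpen s := isOpen_Ioo.prod isOpen_Ioo
  have hsc : IsPreconnected s := isPreconnected_Ioo.prod isPreconnected_Ioo
  have hmem : (z, t) ∈ s := ⟨⟨hz, hz2⟩, ⟨ht, ht2⟩⟩
  set f' : ℕ × ℕ × ℕ × ℕ → ℝ × ℝ → (ℝ × ℝ →L[ℝ] ℝ) := fun m p =>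
    (a m * ((m.2.1 : ℝ) * p.1 ^ (m.2.1 - 1) * (1 + p.1) ^ m.2.2.1 +
      p.1 ^ m.2.1 * ((m.2.2.1 : ℝ) * (1 + p.1) ^ (m.2.2.1 - 1))) * p.2 ^ m.2.2.2) •
        ContinuousLinearMap.fst ℝ ℝ ℝ +
    (a m * p.1 ^ m.2.1 * (1 + p.1) ^ m.2.2.1 * ((m.2.2.2 : ℝ) * p.2 ^ (m.2.2.2 - 1))) •
        ContinuousLinearMap.snd ℝ ℝ ℝ with hf'
  set u : ℕ × ℕ × ℕ × ℕ → ℝ := fun m => (2 / (z1 - z2) + 1 / (t1 - t2)) * f m (z1, t1) with hu
  have husum : Summable u := (hsum (z1, t1) hz1.le ht1.le le_rfl le_rfl).mul_left _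
  have hderiv : ∀ m p, p ∈ s → HasFDerivAt (f m) (f' m p) p := by
    intro m p _
    have e1 : HasFDerivAt (fun q : ℝ × ℝ => q.1) (ContinuousLinearMap.fst ℝ ℝ ℝ) p :=
      hasFDerivAt_fst
    have e2 : HasFDerivAt (fun q : ℝ × ℝ => q.2) (ContinuousLinearMap.snd ℝ ℝ ℝ) p :=
      hasFDerivAt_snd
    have g1 := e1.pow m.2.1
    have g2 := (e1.const_add 1).pow m.2.2.1
    have g3 := e2.pow m.2.2.2
    have g := ((g1.const_mul (a m)).mul g2).mul g3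
    refine g.congr_fderiv ?_
    ext
    · simp [hf']
      ring
    · simp [hf']
  have hbound : ∀ m p, p ∈ s → ‖f' m p‖ ≤ u m := by
    intro m p hp
    obtain ⟨⟨hp1, hp2⟩, ⟨hp3, hp4⟩⟩ := hp
    have b1 := pow_bound' hp1.le hp2.le hz21 m.2.1
    have b2 : (m.2.2.1 : ℝ) * (1 + p.1) ^ (m.2.2.1 - 1) ≤ (1 + z1) ^ m.2.2.1 / (z1 - z2) := by
      have := pow_bound' (by linarith : (0 : ℝ) ≤ 1 + p.1) (by linarith : 1 + p.1 ≤ 1 + z2)
        (by linarith : 1 + z2 < 1 + z1) m.2.2.1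
      rwa [show 1 + z1 - (1 + z2) = z1 - z2 by ring] at this
    have b3 := pow_bound' hp3.le hp4.le ht21 m.2.2.2
    have c1 : p.1 ^ m.2.1 ≤ z1 ^ m.2.1 := pow_le_pow_left₀ hp1.le (by linarith) _
    have c2 : (1 + p.1) ^ m.2.2.1 ≤ (1 + z1) ^ m.2.2.1 :=
      pow_le_pow_left₀ (by linarith) (by linarith) _
    have c3 : p.2 ^ m.2.2.2 ≤ t1 ^ m.2.2.2 := pow_le_pow_left₀ hp3.le (by linarith) _
    have hd1 : 0 < z1 - z2 := by linarith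
    have hd2 : 0 < t1 - t2 := by linarith
    have n1 : 0 ≤ p.1 ^ m.2.1 := by positivity
    have n2 : (0 : ℝ) ≤ (1 + p.1) ^ m.2.2.1 := by positivity
    have n3 : 0 ≤ p.2 ^ m.2.2.2 := by positivity
    have nf : ‖ContinuousLinearMap.fst ℝ ℝ ℝ‖ ≤ 1 := ContinuousLinearMap.norm_fst_le ℝ ℝ ℝ
    have ns : ‖ContinuousLinearMap.snd ℝ ℝ ℝ‖ ≤ 1 := ContinuousLinearMap.norm_snd_le ℝ ℝ ℝ
    have k1 : a m * ((m.2.1 : ℝ) * p.1 ^ (m.2.1 - 1) * (1 + p.1) ^ m.2.2.1 +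
        p.1 ^ m.2.1 * ((m.2.2.1 : ℝ) * (1 + p.1) ^ (m.2.2.1 - 1))) * p.2 ^ m.2.2.2 ≤
        2 / (z1 - z2) * f m (z1, t1) := by
      have h1 : (m.2.1 : ℝ) * p.1 ^ (m.2.1 - 1) * (1 + p.1) ^ m.2.2.1 ≤
          z1 ^ m.2.1 / (z1 - z2) * (1 + z1) ^ m.2.2.1 := by gcongr
      have h2 : p.1 ^ m.2.1 * ((m.2.2.1 : ℝ) * (1 + p.1) ^ (m.2.2.1 - 1)) ≤
          z1 ^ m.2.1 * ((1 + z1) ^ m.2.2.1 / (z1 - z2)) := by gcongr
      have h3 : a m * ((m.2.1 : ℝ) * p.1 ^ (m.2.1 - 1) * (1 + p.1) ^ m.2.2.1 +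
          p.1 ^ m.2.1 * ((m.2.2.1 : ℝ) * (1 + p.1) ^ (m.2.2.1 - 1))) * p.2 ^ m.2.2.2 ≤
          a m * (z1 ^ m.2.1 / (z1 - z2) * (1 + z1) ^ m.2.2.1 +
            z1 ^ m.2.1 * ((1 + z1) ^ m.2.2.1 / (z1 - z2))) * t1 ^ m.2.2.2 := by
        have := ha0 m
        gcongr
      refine h3.trans (le_of_eq ?_)
      simp only [hf]
      field_simp
      ring
    have k2 : a m * p.1 ^ m.2.1 * (1 + p.1) ^ m.2.2.1 * ((m.2.2.2 : ℝ) * p.2 ^ (m.2.2.2 - 1)) ≤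
        1 / (t1 - t2) * f m (z1, t1) := by
      have h3 : a m * p.1 ^ m.2.1 * (1 + p.1) ^ m.2.2.1 * ((m.2.2.2 : ℝ) * p.2 ^ (m.2.2.2 - 1)) ≤
          a m * z1 ^ m.2.1 * (1 + z1) ^ m.2.2.1 * (t1 ^ m.2.2.2 / (t1 - t2)) := by
        have := ha0 m
        gcongr
      refine h3.trans (le_of_eq ?_)
      simp only [hf]
      field_simp
    have hm := ha0 m
    have q1 : 0 ≤ a m * ((m.2.1 : ℝ) * p.1 ^ (m.2.1 - 1) * (1 + p.1) ^ m.2.2.1 +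
        p.1 ^ m.2.1 * ((m.2.2.1 : ℝ) * (1 + p.1) ^ (m.2.2.1 - 1))) * p.2 ^ m.2.2.2 := by
      positivity
    have q2 : 0 ≤ a m * p.1 ^ m.2.1 * (1 + p.1) ^ m.2.2.1 *
        ((m.2.2.2 : ℝ) * p.2 ^ (m.2.2.2 - 1)) := by positivity
    calc ‖f' m p‖ ≤ ‖_ • ContinuousLinearMap.fst ℝ ℝ ℝ‖ + ‖_ • ContinuousLinearMap.snd ℝ ℝ ℝ‖ :=
          norm_add_le _ _
      _ ≤ (a m * ((m.2.1 : ℝ) * p.1 ^ (m.2.1 - 1) * (1 + p.1) ^ m.2.2.1 +
            p.1 ^ m.2.1 * ((m.2.2.1 : ℝ) * (1 + p.1) ^ (m.2.2.1 - 1))) * p.2 ^ m.2.2.2) * 1 +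
          (a m * p.1 ^ m.2.1 * (1 + p.1) ^ m.2.2.1 *
            ((m.2.2.2 : ℝ) * p.2 ^ (m.2.2.2 - 1))) * 1 := by
          rw [norm_smul, norm_smul, Real.norm_of_nonneg q1, Real.norm_of_nonneg q2]
          gcongr
      _ ≤ u m := by
          simp only [hu, mul_one]
          linarith
  have hmain := hasFDerivAt_tsum_of_isPreconnected husum hso hsc hderiv hbound hmem
    (hsum (z, t) hz.le ht.le hzz.le htt.le) hmem
  have hev : (fun p : ℝ × ℝ =>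
      (ser c (.ofReal x) (.ofReal p.1) (.ofReal (1 + p.1)) (.ofReal p.2)).toReal) =ᶠ[nhds (z, t)]
      fun p => ∑' m, f m p := by
    filter_upwards [hso.mem_nhds hmem] with p hp
    exact hser p hp.1.1.le hp.2.1.le
  exact (hmain.congr_of_eventuallyEq hev).differentiableAt

end

end K5N
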