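import Pool.Agent.Lib.K5N.Par

/-!
# K5N.Step : one step of the bootstrap for the lower bound, interval evaluation at a point
-/

namespace K5N

open scoped ENNReal

noncomputable section

/-- The inequalities satisfied by the values at a point where the networks are finite. -/
structure Sys.LP (S : Sys) (x z t a k : ℝ) : Prop where
  hx : 0 < x
  hz : 1 ≤ z
  ht : 0 ≤ t
  ha : 0 ≤ a
  hk : 0 ≤ k
  hA : ser S.ac (.ofReal x) (.ofReal z) (.ofReal (1 + z)) (.ofReal t) ≤ .ofReal a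
  hT : Real.exp a - 1 - a ≤ t
  hK : ser S.k0 (.ofReal x) (.ofReal z) (.ofReal (1 + z)) (.ofReal t) ≤ .ofReal k
  hD : x * z ^ 2 / (1 + x * z) + k ≤ Real.log ((1 + z) / 2) + x ^ 4 * z ^ 8 / 4

/-- Data of an evaluated point: lower bounds `A`, `k` for the values of the core series. -/
structure Pt (x Z T A k : ℝ) : Prop where
  ex : ∃ r s y t : ℝ, Good r s y t ∧ px r s y t ≤ x ∧ 0 ≤ pD r s y t ∧ pD r s y t ≤ Z ∧
    pT r s y t ≤ T ∧ A ≤ pA r s y t ∧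
    k ≤ pK r s y t - px r s y t * (1 + pD r s y t) ^ 2 * pT r s y t * pA r s y t

theorem exp_lower {u : ℝ} (hu : 0 ≤ u) :
    1 + u + u ^ 2 / 2 + u ^ 3 / 6 + u ^ 4 / 24 + u ^ 5 / 120 ≤ Real.exp u := by
  have h := Real.sum_le_exp_of_nonneg hu 6
  simp only [Finset.sum_range_succ, Finset.sum_range_zero, Nat.factorial] at h
  norm_num at h
  linarith

theorem Sys.LP.step {S : Sys} {x z t a k : ℝ} (h : S.LP x z t a k) {Z T A kl Z2 T2 : ℝ}
    (hZ : Z ≤ z) (hT : T ≤ t) (hZ0 : 0 ≤ Z) (hA0 : 0 ≤ A) (P : Pt x Z T A kl)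
    (hT2 : T2 ≤ A ^ 2 / 2 + A ^ 3 / 6 + A ^ 4 / 24 + A ^ 5 / 120)
    (hZ2 : 0 ≤ Z2) {u : ℝ} (hu0 : 0 ≤ u)
    (hu : u ≤ x * Z ^ 2 / (1 + x * Z) + kl - x ^ 4 * Z2 ^ 8 / 4)
    (hZu : (1 + Z2) / 2 ≤ 1 + u + u ^ 2 / 2 + u ^ 3 / 6 + u ^ 4 / 24 + u ^ 5 / 120) :
    Z2 ≤ z ∧ T2 ≤ t := by
  obtain ⟨r, s, y, τ, hg, hpx, hD0, hpD, hpT, hpA, hpk⟩ := P.ex
  obtain ⟨v0, v1, v2, v3, v4⟩ := S.vals hg hD0
  have hpx0 : 0 < px r s y τ := hg.x_pos
  have m1 : ENNReal.ofReal (px r s y τ) ≤ ENNReal.ofReal x := ENNReal.ofReal_le_ofReal hpx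
  have m2 : ENNReal.ofReal (pD r s y τ) ≤ ENNReal.ofReal z :=
    ENNReal.ofReal_le_ofReal (hpD.trans hZ)
  have m3 : ENNReal.ofReal (1 + pD r s y τ) ≤ ENNReal.ofReal (1 + z) :=
    ENNReal.ofReal_le_ofReal (by linarith)
  have m4 : ENNReal.ofReal (pT r s y τ) ≤ ENNReal.ofReal t :=
    ENNReal.ofReal_le_ofReal (hpT.trans hT)
  -- the value `a`
  have ha : pA r s y τ ≤ a := by
    have := (ser_mono S.ac m1 m2 m3 m4).trans h.hA
    rw [v4] at this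
    exact (ENNReal.ofReal_le_ofReal_iff h.ha).1 this
  have hAa : A ≤ a := hpA.trans ha
  -- the value `k`
  have hk : kl ≤ k := by
    have e1 := S.hK0 (.ofReal (px r s y τ)) (.ofReal (pD r s y τ)) (.ofReal (1 + pD r s y τ))
      (.ofReal (pT r s y τ))
    rw [v3, v4] at e1
    have e2 : ser S.k0 (.ofReal (px r s y τ)) (.ofReal (pD r s y τ))
        (.ofReal (1 + pD r s y τ)) (.ofReal (pT r s y τ)) ≤ ENNReal.ofReal k :=
      (ser_mono S.k0 m1 m2 m3 m4).trans h.hK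
    have hc : 0 ≤ px r s y τ * (1 + pD r s y τ) ^ 2 * pT r s y τ * pA r s y τ := by positivity
    have e3 : ENNReal.ofReal (px r s y τ) * ENNReal.ofReal (1 + pD r s y τ) ^ 2 *
        ENNReal.ofReal (pT r s y τ) * ENNReal.ofReal (pA r s y τ) =
        ENNReal.ofReal (px r s y τ * (1 + pD r s y τ) ^ 2 * pT r s y τ * pA r s y τ) := by
      rw [ENNReal.ofReal_mul (by positivity), ENNReal.ofReal_mul (by positivity),
        ENNReal.ofReal_mul hpx0.le, ENNReal.ofReal_pow (by positivity)]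
    rw [e3] at e1
    have e4 := e1.trans (add_le_add_left e2 _)
    rw [← ENNReal.ofReal_add h.hk hc] at e4
    have e5 := (ENNReal.ofReal_le_ofReal_iff (add_nonneg h.hk hc)).1 e4
    linarith
  constructor
  · by_contra hlt
    push Not at hlt
    have hz := h.hz
    have hx := h.hx
    have f1 : x * Z ^ 2 / (1 + x * Z) ≤ x * z ^ 2 / (1 + x * z) := by
      rw [div_le_div_iff₀ (by positivity) (by positivity)]
      have g1 : Z ^ 2 ≤ z ^ 2 := pow_le_pow_left₀ hZ0 hZ 2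
      have g2 : x * Z * z * Z ≤ x * Z * z * z := mul_le_mul_of_nonneg_left hZ (by positivity)
      nlinarith [mul_le_mul_of_nonneg_left g1 hx.le, mul_le_mul_of_nonneg_left g2 hx.le]
    have f2 : Real.log ((1 + z) / 2) < Real.log ((1 + Z2) / 2) :=
      Real.log_lt_log (by linarith) (by linarith)
    have f3 : z ^ 8 ≤ Z2 ^ 8 := pow_le_pow_left₀ (by linarith) hlt.le 8
    have f4 : x ^ 4 * z ^ 8 / 4 ≤ x ^ 4 * Z2 ^ 8 / 4 := by
      have : x ^ 4 * z ^ 8 ≤ x ^ 4 * Z2 ^ 8 := mul_le_mul_of_nonneg_left f3 (by positivity)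
      linarith
    have f5 := h.hD
    have f6 : u < Real.log ((1 + Z2) / 2) := by linarith
    have f7 : Real.exp u < (1 + Z2) / 2 := by
      have := Real.exp_lt_exp.2 f6
      rwa [Real.exp_log (by linarith)] at this
    have f8 := exp_lower hu0
    linarith
  · have g1 := exp_lower hA0
    have g2 : Real.exp A - A ≤ Real.exp a - a := by
      have g3 : Real.exp a = Real.exp A * Real.exp (a - A) := by
        rw [← Real.exp_add]; congr 1; ring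
      have g4 : 1 + (a - A) ≤ Real.exp (a - A) := by
        have := Real.add_one_le_exp (a - A); linarith
      have g5 : 1 ≤ Real.exp A := Real.one_le_exp hA0
      have g6 : Real.exp A * (1 + (a - A)) ≤ Real.exp a := by
        rw [g3]; exact mul_le_mul_of_nonneg_left g4 (by positivity)
      nlinarith
    have g7 := h.hT
    linarith

/-- Interval evaluation at a point. -/
theorem Pt.of {r s y t X w1 w2 w3 x Z T A k Xl Xh Dl Dh Tl Th Yh Nl Nh Ah : ℝ}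
    (hr : 0 < r) (hs : 0 < s) (hy : 0 ≤ y) (ht : 0 ≤ t)
    (hX : px r s y t = X) (hb : pb r s y t = 1) (h1 : pw1 r s y t = w1) (h2 : pw2 r s y t = w2)
    (h3 : pw3 r s y t = w3) (hj : 0 ≤ pj r s y t)
    (hsub : 4 * r * s * (y + 3 * t * (r + s)) ^ 2 ≤ pj r s y t ^ 2)
    (hXl0 : 0 < Xl) (hXl : Xl ≤ X) (hXh : X ≤ Xh) (hXx : Xh ≤ x) (hw1 : 0 < w1)
    (hDl : 0 ≤ Dl) (hDl' : Dl ≤ w2 / w1 ^ 2 - 1 / X - 1) (hDh : w2 / w1 ^ 2 - 1 / X - 1 ≤ Dh)
    (hDZ : Dh ≤ Z) (hTl : 0 ≤ Tl) (hTl' : Tl ≤ t * (w1 / X) ^ 3) (hTh : t * (w1 / X) ^ 3 ≤ Th)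
    (hTT : Th ≤ T) (hYh : y * (w1 / X) ^ 2 + 2 * (t * (w1 / X) ^ 3) ≤ Yh)
    (hNl : Nl ≤ w3 / w1 ^ 3 - 3 * w2 / (w1 ^ 2 * X) + 2 / X ^ 2)
    (hNh : w3 / w1 ^ 3 - 3 * w2 / (w1 ^ 2 * X) + 2 / X ^ 2 ≤ Nh)
    (hNl0 : 0 ≤ Nl)
    (hA : A ≤ Nl / (1 + Dh) ^ 3 - 1 - Th) (hAh : Nh / (1 + Dl) ^ 3 - 1 - Tl ≤ Ah) (hAh0 : 0 ≤ Ah)
    (hk : k ≤ (Dl / (1 + Dl) - Yh - Xh * Dh ^ 2 / (1 + Xh * Dh) -
      Xh * (1 + Dh) ^ 2 * (2 * Th + Th ^ 2)) / 2 - Xh * (1 + Dh) ^ 2 * Th * Ah) :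
    Pt x Z T A k := by
  have hX0 : 0 < X := hXl0.trans_le hXl
  have hg : Good r s y t := ⟨hr, hs, hy, ht, by rw [hX]; exact hX0, hb, hj, hsub⟩
  have eD : pD r s y t = w2 / w1 ^ 2 - 1 / X - 1 := by
    rw [pD_eq (by rw [hX]; exact hX0.ne') (by rw [h1]; exact hw1.ne'), hX, h1, h2]
  have ek : pkap r s y t = w1 / X := by unfold pkap; rw [hX, h1]
  have eT : pT r s y t = t * (w1 / X) ^ 3 := by unfold pT; rw [ek]
  have eY : pY r s y t = y * (w1 / X) ^ 2 + 2 * (t * (w1 / X) ^ 3) := by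
    unfold pY; rw [ek, eT]
  have eN : pN r s y t = w3 / w1 ^ 3 - 3 * w2 / (w1 ^ 2 * X) + 2 / X ^ 2 := by
    rw [pN_eq (by rw [hX]; exact hX0.ne') (by rw [h1]; exact hw1.ne'), eD, hX, h1, h3]
    field_simp
    ring
  have a1 : Dl ≤ pD r s y t := by rw [eD]; exact hDl'
  have a2 : pD r s y t ≤ Dh := by rw [eD]; exact hDh
  have a3 : Tl ≤ pT r s y t := by rw [eT]; exact hTl'
  have a4 : pT r s y t ≤ Th := by rw [eT]; exact hTh
  have a5 : pY r s y t ≤ Yh := by rw [eY]; exact hYh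
  have a6 : Nl ≤ pN r s y t := by rw [eN]; exact hNl
  have a7 : pN r s y t ≤ Nh := by rw [eN]; exact hNh
  set D := pD r s y t
  set T' := pT r s y t
  set Y' := pY r s y t
  set N := pN r s y t
  have hD0 : 0 ≤ D := hDl.trans a1
  have hT0 : 0 ≤ T' := hTl.trans a3
  have hDh0 : 0 ≤ Dh := hD0.trans a2
  have hTh0 : 0 ≤ Th := hT0.trans a4
  have hXh0 : 0 < Xh := hX0.trans_le hXh
  have hN0 : 0 ≤ N := hNl0.trans a6
  have b1 : A ≤ pA r s y t := by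
    refine hA.trans ?_
    unfold pA
    have c1 : Nl / (1 + Dh) ^ 3 ≤ N / (1 + D) ^ 3 := by
      refine div_le_div₀ hN0 a6 (by positivity) ?_
      exact pow_le_pow_left₀ (by positivity) (by linarith) 3
    linarith
  have b2 : pA r s y t ≤ Ah := by
    refine le_trans ?_ hAh
    unfold pA
    have c1 : N / (1 + D) ^ 3 ≤ Nh / (1 + Dl) ^ 3 := by
      refine div_le_div₀ (hN0.trans a7) a7 (by positivity) ?_
      exact pow_le_pow_left₀ (by positivity) (by linarith) 3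
    linarith
  refine ⟨r, s, y, t, hg, by rw [hX]; exact hXh.trans hXx, hD0, a2.trans hDZ, a4.trans hTT, b1, ?_⟩
  refine hk.trans ?_
  unfold pK
  rw [hX]
  have d1 : Dl / (1 + Dl) ≤ D / (1 + D) := by
    rw [div_le_div_iff₀ (by positivity) (by positivity)]
    nlinarith
  have d2 : X * D ^ 2 / (1 + X * D) ≤ Xh * Dh ^ 2 / (1 + Xh * Dh) := by
    rw [div_le_div_iff₀ (by positivity) (by positivity)]
    have g1 : X * D ^ 2 ≤ Xh * Dh ^ 2 := by gcongr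
    have g2 : X * D * (Xh * Dh) * D ≤ X * D * (Xh * Dh) * Dh := by gcongr
    nlinarith
  have d3 : X * (1 + D) ^ 2 * (2 * T' + T' ^ 2) ≤ Xh * (1 + Dh) ^ 2 * (2 * Th + Th ^ 2) := by
    gcongr
  have d4 : X * (1 + D) ^ 2 * T' * pA r s y t ≤ Xh * (1 + Dh) ^ 2 * Th * Ah := by
    have : X * (1 + D) ^ 2 * T' ≤ Xh * (1 + Dh) ^ 2 * Th := by gcongr
    calc X * (1 + D) ^ 2 * T' * pA r s y t ≤ X * (1 + D) ^ 2 * T' * Ah := by gcongr
      _ ≤ Xh * (1 + Dh) ^ 2 * Th * Ah := by gcongr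
  linarith

end

end K5N
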